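import Pool.Agent.H67.HM.Stm2

set_option autoImplicit false

open Polynomial MeasureTheory Filter Topology

namespace HM

/-- the property of approximate invertibility -/
def InvP (x : RR) : Prop := ∃ C : ℝ, 0 < C ∧ ∀ κ : ℝ, 0 < κ → ∃ a : RR, Nn 1 (x * a - 1) ≤ κ ∧ Nn 1 a ≤ C

theorem invP_mul (hN : S_NRM) {x y : RR} (hx : InvP x) (hy : InvP y) : InvP (x * y) := by
  obtain ⟨C, hC, h1⟩ := hx
  obtain ⟨D, hD, h2⟩ := hy
  refine ⟨C * D, mul_pos hC hD, fun κ hκ => ?_⟩
  set t : ℝ := min 1 (κ / 3) with ht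
  have ht0 : 0 < t := lt_min one_pos (by positivity)
  have ht1 : t ≤ 1 := min_le_left _ _
  have ht2 : t ≤ κ / 3 := min_le_right _ _
  obtain ⟨a, ha, ha'⟩ := h1 t ht0
  obtain ⟨b, hb, hb'⟩ := h2 t ht0
  refine ⟨a * b, ?_, ?_⟩
  · have e : x * y * (a * b) - 1 = (x * a - 1) * (y * b - 1) + ((x * a - 1) + (y * b - 1)) := by ring
    rw [e]
    have i1 := hN.add 1 ((x * a - 1) * (y * b - 1)) ((x * a - 1) + (y * b - 1)) le_rfl
    have i2 := hN.add 1 (x * a - 1) (y * b - 1) le_rfl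
    have i3 := hN.mul 1 (x * a - 1) (y * b - 1) le_rfl
    have n1 := hN.nonneg 1 (x * a - 1)
    have n2 := hN.nonneg 1 (y * b - 1)
    have i4 : Nn 1 (x * a - 1) * Nn 1 (y * b - 1) ≤ t * 1 :=
      mul_le_mul ha (hb.trans ht1) n2 ht0.le
    linarith
  · refine (hN.mul 1 a b le_rfl).trans ?_
    exact mul_le_mul ha' hb' (hN.nonneg 1 b) hC.le

theorem nn_single_one (hN : S_NRM) (g : ℤ) (c : ℂ) :
    Nn 1 (AddMonoidAlgebra.single g c : RR) = ‖c‖ := by
  have e : (AddMonoidAlgebra.single g c : RR) = c • (AddMonoidAlgebra.single g 1 * 1) := by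
    rw [mul_one, AddMonoidAlgebra.smul_single, smul_eq_mul, mul_one]
  rw [e, hN.smul 1 _ _ le_rfl, hN.single_mul 1 _ _ le_rfl, hN.one 1 le_rfl, mul_one]

theorem invP_const (hN : S_NRM) {c : ℂ} (hc : c ≠ 0) : InvP (AddMonoidAlgebra.single 0 c) := by
  refine ⟨‖c⁻¹‖ + 1, by positivity, fun κ hκ => ⟨AddMonoidAlgebra.single 0 c⁻¹, ?_, ?_⟩⟩
  · rw [AddMonoidAlgebra.single_mul_single, add_zero, mul_inv_cancel₀ hc]
    have : (AddMonoidAlgebra.single (0 : ℤ) (1 : ℂ) : RR) = 1 := rfl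
    rw [this, sub_self, hN.zero 1 le_rfl]
    exact hκ.le
  · rw [nn_single_one hN]
    linarith

/-- `1 - c T^g` with `‖c‖ < 1` -/
theorem invP_geom (hN : S_NRM) (g : ℤ) {c : ℂ} (hc : ‖c‖ < 1) :
    InvP (1 - AddMonoidAlgebra.single g c) := by
  refine ⟨(1 - ‖c‖)⁻¹, inv_pos.2 (by linarith), fun κ hκ => ?_⟩
  obtain ⟨n, hn⟩ := exists_pow_lt_of_lt_one hκ hc
  set y : RR := AddMonoidAlgebra.single g c with hy
  have hyn : ∀ m : ℕ, Nn 1 (y ^ m) = ‖c‖ ^ m := by
    intro m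
    rw [hy, AddMonoidAlgebra.single_pow, nn_single_one hN, norm_pow]
  refine ⟨∑ i ∈ Finset.range n, y ^ i, ?_, ?_⟩
  · rw [mul_neg_geom_sum, sub_sub_cancel_left, hN.neg, hyn]
    exact hn.le
  · refine (hN.sum 1 _ _ le_rfl).trans ?_
    simp_rw [hyn]
    have h0 : 0 ≤ ‖c‖ := norm_nonneg c
    rw [geom_sum_eq (by linarith), ← neg_div_neg_eq, neg_sub, neg_sub, div_eq_mul_inv]
    have : 0 ≤ ‖c‖ ^ n := by positivity
    have h1 : 0 < (1 - ‖c‖)⁻¹ := inv_pos.2 (by linarith)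
    nlinarith

theorem invP_T (hN : S_NRM) (g : ℤ) : InvP (AddMonoidAlgebra.single g (1 : ℂ)) := by
  refine ⟨1, one_pos, fun κ hκ => ⟨AddMonoidAlgebra.single (-g) 1, ?_, ?_⟩⟩
  · rw [AddMonoidAlgebra.single_mul_single, add_neg_cancel, mul_one]
    have : (AddMonoidAlgebra.single (0 : ℤ) (1 : ℂ) : RR) = 1 := rfl
    rw [this, sub_self, hN.zero 1 le_rfl]
    exact hκ.le
  · rw [nn_single_one hN]; simp

theorem inv_tl_C (c : ℂ) : tl (C c) = AddMonoidAlgebra.single 0 c :=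
  Polynomial.toLaurent_C c

theorem inv_tl_X : tl X = AddMonoidAlgebra.single 1 1 :=
  Polynomial.toLaurent_X

theorem invP_lin (hN : S_NRM) {z : ℂ} (hz : ‖z‖ ≠ 1) : InvP (tl (X - C z)) := by
  rw [map_sub, inv_tl_X, inv_tl_C]
  rcases lt_or_gt_of_ne hz with h | h
  · -- T (1 - z T⁻¹)
    have e : (AddMonoidAlgebra.single 1 1 - AddMonoidAlgebra.single 0 z : RR) =
        AddMonoidAlgebra.single 1 1 * (1 - AddMonoidAlgebra.single (-1) z) := by
      rw [mul_sub, mul_one, AddMonoidAlgebra.single_mul_single]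
      norm_num
    rw [e]
    exact invP_mul hN (invP_T hN 1) (invP_geom hN (-1) h)
  · -- (-z) (1 - z⁻¹ T)
    have hz0 : z ≠ 0 := by
      rintro rfl
      simp at h
      linarith
    have e : (AddMonoidAlgebra.single 1 1 - AddMonoidAlgebra.single 0 z : RR) =
        AddMonoidAlgebra.single 0 (-z) * (1 - AddMonoidAlgebra.single 1 z⁻¹) := by
      rw [mul_sub, mul_one, AddMonoidAlgebra.single_mul_single, neg_mul, mul_inv_cancel₀ hz0,
        zero_add, AddMonoidAlgebra.single_neg, AddMonoidAlgebra.single_neg]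
      abel
    rw [e]
    refine invP_mul hN (invP_const hN (neg_ne_zero.2 hz0)) (invP_geom hN 1 ?_)
    rw [norm_inv]
    exact inv_lt_one_of_one_lt₀ h

theorem INV_proved (hN : S_NRM) : S_INV := by
  have key : ∀ n : ℕ, ∀ A : ℂ[X], A.natDegree = n → (∀ z : ℂ, ‖z‖ = 1 → A.eval z ≠ 0) →
      InvP (tl A) := by
    intro n
    induction n with
    | zero =>
      intro A hA hz
      rw [Polynomial.natDegree_eq_zero] at hA
      obtain ⟨c, rfl⟩ := hA
      rw [inv_tl_C]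
      apply invP_const hN
      have := hz 1 (by simp)
      simpa using this
    | succ n ih =>
      intro A hA hz
      have hdeg : A.degree ≠ 0 := by
        intro h
        have := Polynomial.natDegree_eq_zero_iff_degree_le_zero.2 h.le
        omega
      obtain ⟨z, hz'⟩ := IsAlgClosed.exists_root A hdeg
      obtain ⟨B, rfl⟩ := Polynomial.dvd_iff_isRoot.2 hz'
      have hz1 : ‖z‖ ≠ 1 := fun h => hz z h hz'
      have hB0 : B ≠ 0 := by
        rintro rfl
        simp at hA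
      rw [map_mul]
      refine invP_mul hN (invP_lin hN hz1) (ih B ?_ ?_)
      · rw [Polynomial.natDegree_mul (Polynomial.X_sub_C_ne_zero z) hB0,
          Polynomial.natDegree_X_sub_C] at hA
        omega
      · intro w hw h
        apply hz w hw
        rw [Polynomial.eval_mul, h, mul_zero]
  intro A hA
  exact key _ A rfl hA

end HM
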