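import Pool.Agent.H67.HM.Stm2

set_option autoImplicit false

open Polynomial MeasureTheory Filter Topology

namespace HM

theorem ten_expand {G : Type} [AddCommGroup G] (k : ℕ) (x : Fin k → AddMonoidAlgebra ℂ G) :
    ∏ a, em a (x a) = ∑ f ∈ Fintype.piFinset (fun a => (x a).coeff.support),
      AddMonoidAlgebra.single f (∏ a, (x a).coeff (f a)) := by
  classical
  have h1 : ∀ a, em (κ := Fin k) a (x a) = ∑ g ∈ (x a).coeff.support,
      AddMonoidAlgebra.single (Pi.single a g : Fin k → G) ((x a).coeff g) := by
    intro a
    conv_lhs => rw [← AddMonoidAlgebra.sum_coeff_single (x a)]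
    rw [Finsupp.sum, map_sum]
    apply Finset.sum_congr rfl
    intro g _
    simp [em, sb]
  simp_rw [h1]
  rw [Finset.prod_univ_sum]
  apply Finset.sum_congr rfl
  intro f _
  rw [AddMonoidAlgebra.prod_single]
  congr 1
  exact Finset.univ_sum_single f

theorem ten_coeff {G : Type} [AddCommGroup G] (k : ℕ) (x : Fin k → AddMonoidAlgebra ℂ G)
    (α : Fin k → G) : (∏ a, em a (x a)).coeff α = ∏ a, (x a).coeff (α a) := by
  classical
  rw [ten_expand, AddMonoidAlgebra.coeff_sum, Finsupp.finsetSum_apply]
  simp only [AddMonoidAlgebra.coeff_single, Finsupp.single_apply]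
  rw [Finset.sum_ite_eq']
  split_ifs with h
  · rfl
  · rw [Fintype.mem_piFinset] at h
    push Not at h
    obtain ⟨a, ha⟩ := h
    symm
    apply Finset.prod_eq_zero (Finset.mem_univ a)
    simpa using ha

theorem ten_support {G : Type} [AddCommGroup G] (k : ℕ) (x : Fin k → AddMonoidAlgebra ℂ G) :
    (∏ a, em a (x a)).coeff.support = Fintype.piFinset (fun a => (x a).coeff.support) := by
  classical
  ext α
  rw [Finsupp.mem_support_iff, ten_coeff, Fintype.mem_piFinset, Finset.prod_ne_zero_iff]
  simp

theorem ten_nrm {G : Type} [AddCommGroup G] (k : ℕ) (x : Fin k → AddMonoidAlgebra ℂ G) (r : ℝ)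
    (_hr : 1 ≤ r) : Nn r (∏ a, em a (x a)) = ∏ a, Nn r (x a) := by
  classical
  unfold Nn
  rw [ten_support, Real.finsetProd_rpow _ _ (fun a _ => Finset.sum_nonneg fun g _ => by positivity),
    Finset.prod_univ_sum]
  congr 1
  apply Finset.sum_congr rfl
  intro f _
  rw [ten_coeff, norm_prod, Real.finsetProd_rpow _ _ (fun a _ => norm_nonneg _)]

theorem ten_upd {G : Type} [AddCommGroup G] (k : ℕ) (u : Fin k → AddMonoidAlgebra ℂ G) (i : Fin k)
    (v : AddMonoidAlgebra ℂ G) : ∏ a, em a (Function.update u i v a) =
      em i v * ∏ a ∈ Finset.univ.erase i, em a (u a) := by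
  classical
  rw [← Finset.mul_prod_erase Finset.univ _ (Finset.mem_univ i), Function.update_self]
  congr 1
  apply Finset.prod_congr rfl
  intro a ha
  rw [Function.update_of_ne (Finset.ne_of_mem_erase ha)]

theorem ten_upd_sub {G : Type} [AddCommGroup G] (k : ℕ) (u : Fin k → AddMonoidAlgebra ℂ G)
    (i : Fin k) (v w : AddMonoidAlgebra ℂ G) : ∏ a, em a (Function.update u i v a) -
      ∏ a, em a (Function.update u i w a) = ∏ a, em a (Function.update u i (v - w) a) := by
  rw [ten_upd, ten_upd, ten_upd, map_sub, sub_mul]

theorem TEN_proved (hN : S_NRM) : S_TEN := by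
  refine ⟨ten_coeff, ten_nrm, ?_⟩
  intro G _ k x y r B ρ hr hB hρ hx hy hxy
  classical
  have key : ∀ s : Finset (Fin k), Nn r (∏ a, em a (x a) -
      ∏ a, em a (if a ∈ s then y a else x a)) ≤ s.card * B ^ k * ρ := by
    intro s
    induction s using Finset.induction_on with
    | empty => simp [hN.zero r hr]
    | insert i s hi ih =>
      have e1 : (fun a => if a ∈ s then y a else x a) =
          Function.update (fun a => if a ∈ s then y a else x a) i (x i) := by
        funext a
        by_cases ha : a = i
        · subst ha; simp [hi]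
        · rw [Function.update_of_ne ha]
      have e2 : (fun a => if a ∈ insert i s then y a else x a) =
          Function.update (fun a => if a ∈ s then y a else x a) i (y i) := by
        funext a
        by_cases ha : a = i
        · subst ha; simp
        · rw [Function.update_of_ne ha]; simp [ha]
      have e3 : ∏ a, em a (if a ∈ s then y a else x a) -
          ∏ a, em a (if a ∈ insert i s then y a else x a) =
          ∏ a, em a (Function.update (fun a => if a ∈ s then y a else x a) i (x i - y i) a) := by
        rw [← ten_upd_sub, ← e1, ← e2]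
      have hb : Nn r (∏ a, em a (if a ∈ s then y a else x a) -
          ∏ a, em a (if a ∈ insert i s then y a else x a)) ≤ B ^ k * ρ := by
        rw [e3, ten_nrm k _ r hr, ← Finset.mul_prod_erase Finset.univ _ (Finset.mem_univ i),
          Function.update_self]
        have h1 : ∏ a ∈ Finset.univ.erase i,
            Nn r (Function.update (fun a => if a ∈ s then y a else x a) i (x i - y i) a) ≤
            ∏ a ∈ (Finset.univ.erase i : Finset (Fin k)), B := by
          apply Finset.prod_le_prod
          · intro a _; exact hN.nonneg r _
          · intro a ha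
            rw [Function.update_of_ne (Finset.ne_of_mem_erase ha)]
            split_ifs
            · exact hy a
            · exact hx a
        rw [Finset.prod_const, Finset.card_erase_of_mem (Finset.mem_univ i), Finset.card_univ,
          Fintype.card_fin] at h1
        have h2 : B ^ (k - 1) ≤ B ^ k := pow_le_pow_right₀ hB (Nat.sub_le k 1)
        calc _ ≤ ρ * B ^ (k - 1) := by
              apply mul_le_mul (hxy i) h1 _ hρ
              exact Finset.prod_nonneg fun a _ => hN.nonneg r _
          _ ≤ ρ * B ^ k := by gcongr
          _ = B ^ k * ρ := mul_comm _ _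
      rw [Finset.card_insert_of_notMem hi]
      have e4 : ∏ a, em a (x a) - ∏ a, em a (if a ∈ insert i s then y a else x a) =
          (∏ a, em a (x a) - ∏ a, em a (if a ∈ s then y a else x a)) +
          (∏ a, em a (if a ∈ s then y a else x a) -
          ∏ a, em a (if a ∈ insert i s then y a else x a)) := by abel
      rw [e4]
      refine (hN.add r _ _ hr).trans ?_
      push_cast
      nlinarith [ih, hb]
  have h := key Finset.univ
  simpa using h

end HM
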